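import Pool.Agent.Helper36.SPR.St4
import Pool.Agent.Helper95.SPR.M_FQ

/-!
# Project SPR3 (MP_343216_nt): module FQ3

Flattening for the modulus `p q` and the powers of an element `th`; the proof is the one of
`Pool.Agent.Helper95.SPR.M_FQ` for the powers of `2`.
-/

set_option autoImplicit false

namespace Pool.Agent.Helper41.SPR

open Finset
open Pool.Agent.Helper36.SPR
open Pool.Agent.Helper95.SPR (agr_eq agr_bound nonunit_cast agr_num)

lemma eta_bound3 (hNA : StNA3) (hNP : StNP3) (p q T j : ℕ) [NeZero p] [NeZero q]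
    (th : ZMod (p * q))
    (hp : p.Prime) (hq : q.Prime) (hT : 0 < T) :
    (∑ x : ZMod (p * q), if IsUnit x then 0 else nuv (p * q) T th j x) ≤ betv p T (ZMod.cast th : ZMod p) j + betv q T (ZMod.cast th : ZMod q) j := by
  have hn := (hNA (p * q) T th hT j).1
  have h1 := (hNP p (p * q) T th (Dvd.intro _ rfl) hT j).1 0
  have h2 := (hNP q (p * q) T th (Dvd.intro_left _ rfl) hT j).1 0
  unfold betv
  rw [← h1, ← h2, Finset.sum_filter, Finset.sum_filter, ← Finset.sum_add_distrib]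
  refine Finset.sum_le_sum ?_
  intro x _
  have hx := hn x
  by_cases hu : IsUnit x
  · rw [if_pos hu]
    split_ifs <;> linarith
  · rw [if_neg hu]
    rcases nonunit_cast p q hp hq x hu with h | h
    · rw [if_pos h]
      split_ifs <;> linarith
    · rw [if_pos h]
      split_ifs <;> linarith

theorem hFQ3 (hNA3 : StNA3) (hNB3 : StNB3) (hNP3 : StNP3) (hST3 : StST3) (hSQ : StSQ) : StFQ3 := by
  intro p q T j _ _ th K hp hq hpq hT h2T hj hK hqK hbp hbq hlow
  have hK0 : 0 < K := by linarith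
  have hK1 : 1 ≤ K := by linarith
  have hP : (0 : ℝ) < p := by exact_mod_cast hp.pos
  have hQ : (0 : ℝ) < q := by exact_mod_cast hq.pos
  have hPQ : (p : ℝ) ≤ q := by exact_mod_cast hpq.le
  have h2qp : 2 / (q : ℝ) ≤ 2 / p := div_le_div_of_nonneg_left (by norm_num) hP hPQ
  obtain ⟨b, hbdef⟩ : ∃ b, b = betv (p * q) T th j := ⟨_, rfl⟩
  have hjj : j ≤ 4 * j ^ 2 := by nlinarith
  have hmono : betv (p * q) T th (4 * j ^ 2) ≤ b := by
    rw [hbdef]
    exact (hNB3 (p * q) T th hT j).2.2.2.2.2.2 _ hjj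
  have hb1 : 2 / (K * p) ≤ b := hlow.trans hmono
  have hb0 : 0 < b := lt_of_lt_of_le (by positivity) hb1
  have hb2 : b ≤ 2 / p := by
    rw [hbdef]
    exact ((hNP3 q (p * q) T th (Dvd.intro_left _ rfl) hT j).2.trans hbq).trans h2qp
  have hflat : betv (p * q) T th j ≤ K * betv (p * q) T th (4 * j ^ 2) := by
    rw [← hbdef]
    calc b ≤ 2 / p := hb2
      _ = K * (2 / (K * p)) := by field_simp
      _ ≤ K * betv (p * q) T th (4 * j ^ 2) := mul_le_mul_of_nonneg_left hlow hK0.le
  have heta := eta_bound3 hNA3 hNP3 p q T j th hp hq hT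
  have heta0 : 0 ≤ (∑ x : ZMod (p * q), if IsUnit x then 0 else nuv (p * q) T th j x) := by
    refine Finset.sum_nonneg ?_
    intro x _
    split_ifs
    · exact le_refl _
    · exact (hNA3 (p * q) T th hT j).1 x
  have heta4 : (∑ x : ZMod (p * q), if IsUnit x then 0 else nuv (p * q) T th j x) ≤ 4 / p := by
    calc (∑ x : ZMod (p * q), if IsUnit x then 0 else nuv (p * q) T th j x)
        ≤ betv p T (ZMod.cast th : ZMod p) j + betv q T (ZMod.cast th : ZMod q) j := heta
      _ ≤ 2 / p + 2 / p := add_le_add hbp (hbq.trans h2qp)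
      _ = 4 / p := by ring
  by_cases hcase : 4 * (∑ x : ZMod (p * q), if IsUnit x then 0 else nuv (p * q) T th j x) ^ 2
      ≤ betv (p * q) T th j / (2 * K)
  · obtain ⟨S, hSne, hSd, hSr, hS1, hS2, hS3⟩ :=
      hST3 (p * q) T th hT h2T j K hj hK hflat hcase
    rw [← hbdef] at hS1 hS2 hS3
    have hs82 : (p : ℝ) ≤ K ^ 82 * S.card := by
      have h1 : 1 ≤ K ^ 81 * (2 / p) * S.card := by
        refine hS1.trans ?_
        apply mul_le_mul_of_nonneg_right _ (Nat.cast_nonneg _)
        exact mul_le_mul_of_nonneg_left hb2 (by positivity)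
      have h2 : (p : ℝ) ≤ 2 * K ^ 81 * S.card := by
        have e : K ^ 81 * (2 / (p : ℝ)) * S.card = (2 * K ^ 81 * S.card) / p := by ring
        rw [e, le_div_iff₀ hP] at h1
        linarith
      calc (p : ℝ) ≤ 2 * K ^ 81 * S.card := h2
        _ ≤ K * K ^ 81 * S.card := by
            apply mul_le_mul_of_nonneg_right _ (Nat.cast_nonneg _)
            exact mul_le_mul_of_nonneg_right hK (by positivity)
        _ = K ^ 82 * S.card := by ring
    have hs7 : (S.card : ℝ) ≤ K ^ 7 * p := by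
      have h1 : (S.card : ℝ) * (2 / (K * p)) ≤ K ^ 6 :=
        (mul_le_mul_of_nonneg_left hb1 (Nat.cast_nonneg _)).trans hS2
      have e : (S.card : ℝ) * (2 / (K * p)) = (2 * S.card) / (K * p) := by ring
      rw [e, div_le_iff₀ (by positivity)] at h1
      have h3 : (0 : ℝ) ≤ S.card := Nat.cast_nonneg _
      have e2 : K ^ 6 * (K * p) = K ^ 7 * p := by ring
      rw [e2] at h1
      linarith
    have hnu : ∀ s ∈ S, b / (32 * K) ≤ nuv (p * q) T th j (s : ZMod (p * q)) := by
      intro s hs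
      rw [div_le_iff₀ (by positivity)]
      have := hS3 s hs
      linarith
    have hagr : ∀ (m : ℕ) [NeZero m], m ∣ p * q → betv m T (ZMod.cast th : ZMod m) j ≤ 2 / p →
        (agr m S : ℝ) ≤ K ^ 218 * S.card := by
      intro m _ hm hbm
      have h1 := agr_bound m (p * q) S (nuv (p * q) T th j) (nuv m T (ZMod.cast th : ZMod m) j) (b / (32 * K))
        (by positivity) (hNA3 (p * q) T th hT j).1 (hNP3 m (p * q) T th hm hT j).1 hnu
      rw [(hNB3 m T (ZMod.cast th : ZMod m) hT j).2.2.2.2.2.1] at h1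
      have h2 : betv m T (ZMod.cast th : ZMod m) (2 * j) ≤ 2 / p :=
        ((hNB3 m T (ZMod.cast th : ZMod m) hT j).2.2.2.2.2.2 (2 * j) (by omega)).trans hbm
      exact agr_num K p b _ _ _ hK hP hb1 (Nat.cast_nonneg _) h1 h2 hs82
    have hM2 : (2 : ℝ) ≤ K ^ 218 := by
      calc (2 : ℝ) ≤ K := hK
        _ = K ^ 1 := (pow_one K).symm
        _ ≤ K ^ 218 := pow_le_pow_right₀ hK1 (by norm_num)
    have hfin := hSQ p q hp hq hpq S (K ^ 218) hSne hM2 hSd hSr
      (hagr p (Dvd.intro _ rfl) hbp) (hagr q (Dvd.intro_left _ rfl) (hbq.trans h2qp))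
      (hs82.trans (mul_le_mul_of_nonneg_right (pow_le_pow_right₀ hK1 (by norm_num))
        (Nat.cast_nonneg _)))
      (hs7.trans (mul_le_mul_of_nonneg_right (pow_le_pow_right₀ hK1 (by norm_num)) hP.le))
      (hqK.trans (mul_le_mul_of_nonneg_right (by
        calc K = K ^ 1 := (pow_one K).symm
          _ ≤ K ^ 218 := pow_le_pow_right₀ hK1 (by norm_num)) hP.le))
    rw [← pow_mul] at hfin
    exact hfin.trans (pow_le_pow_right₀ hK1 (by norm_num))
  · push Not at hcase
    rw [← hbdef] at hcase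
    have h1 : 1 / (K ^ 2 * p) ≤ b / (2 * K) := by
      calc 1 / (K ^ 2 * (p : ℝ)) = (2 / (K * p)) / (2 * K) := by field_simp
        _ ≤ b / (2 * K) := div_le_div_of_nonneg_right hb1 (by positivity)
    have h2 : 4 * (∑ x : ZMod (p * q), if IsUnit x then 0 else nuv (p * q) T th j x) ^ 2
        ≤ 64 / (p : ℝ) ^ 2 := by
      calc 4 * (∑ x : ZMod (p * q), if IsUnit x then 0 else nuv (p * q) T th j x) ^ 2
          ≤ 4 * (4 / (p : ℝ)) ^ 2 := by
            apply mul_le_mul_of_nonneg_left _ (by norm_num)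
            exact pow_le_pow_left₀ heta0 heta4 2
        _ = 64 / (p : ℝ) ^ 2 := by ring
    have h3 : 1 / (K ^ 2 * (p : ℝ)) < 64 / (p : ℝ) ^ 2 :=
      lt_of_le_of_lt h1 (lt_of_lt_of_le hcase h2)
    have h4 : (p : ℝ) < 64 * K ^ 2 := by
      rw [div_lt_div_iff₀ (by positivity) (by positivity)] at h3
      have h5 : (p : ℝ) * p < (64 * K ^ 2) * p := by nlinarith
      exact lt_of_mul_lt_mul_right h5 hP.le
    have h6 : (64 : ℝ) ≤ K ^ 6 := by
      calc (64 : ℝ) = 2 ^ 6 := by norm_num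
        _ ≤ K ^ 6 := pow_le_pow_left₀ (by norm_num) hK 6
    calc (p : ℝ) ≤ 64 * K ^ 2 := h4.le
      _ ≤ K ^ 6 * K ^ 2 := mul_le_mul_of_nonneg_right h6 (by positivity)
      _ = K ^ 8 := by ring
      _ ≤ K ^ 24000 := pow_le_pow_right₀ hK1 (by norm_num)

end Pool.Agent.Helper41.SPR
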